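import Pool.Agent.N219.PM.Defs

/-!
# Counting lemmas
-/

open Filter Topology
open scoped ENNReal

namespace Pool.Agent.N219.PM

lemma nonneg_of {X : Type*} {ρ : X → X → ℝ} (h0 : ∀ x, ρ x x = 0) (hs : ∀ x y, ρ x y = ρ y x)
    (ht : ∀ x y z, ρ x z ≤ ρ x y + ρ y z) (x y : X) : 0 ≤ ρ x y := by
  have := ht x y x
  rw [h0, hs y x] at this
  linarith

/-- The number of functions `f : Fin d → Option (Fin N)` with few non-`none` values. -/
lemma card_codes (d N : ℕ) (hN : 0 < N) (θ : ℝ) (h0 : 0 < θ) (h1 : θ ≤ 1) :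
    ((Finset.univ.filter fun f : Fin d → Option (Fin N) =>
      (((Finset.univ.filter fun j => f j ≠ none).card : ℕ) : ℝ) ≤ θ * d).card : ℝ) ≤
      Real.exp (d * (θ * (Real.log N - Real.log θ + 1))) := by
  classical
  set τ : ℝ := Real.log N - Real.log θ with hτ
  have hNr : (0 : ℝ) < N := by exact_mod_cast hN
  have hτ0 : 0 ≤ τ := by
    have a : 0 ≤ Real.log N := Real.log_natCast_nonneg N
    have b : Real.log θ ≤ 0 := Real.log_nonpos h0.le h1
    linarith
  set w : Option (Fin N) → ℝ := fun a => if a = none then 1 else Real.exp (-τ) with hw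
  have hw0 : ∀ a, 0 ≤ w a := by
    intro a
    simp only [hw]
    split_ifs
    · norm_num
    · positivity
  have hsum : ∑ a, w a = 1 + θ := by
    rw [Fintype.sum_option]
    simp only [hw]
    simp only [if_true, reduceCtorEq, if_false, Finset.sum_const, Finset.card_univ,
      Fintype.card_fin, nsmul_eq_mul]
    rw [hτ, neg_sub, Real.exp_sub, Real.exp_log h0, Real.exp_log hNr]
    field_simp
  have hprod : ∀ f : Fin d → Option (Fin N),
      ∏ j, w (f j) = Real.exp (-τ * ((Finset.univ.filter fun j => f j ≠ none).card : ℕ)) := by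
    intro f
    simp only [hw]
    rw [Finset.prod_ite]
    simp only [Finset.prod_const_one, one_mul, Finset.prod_const]
    rw [← Real.exp_nat_mul]
    congr 1
    ring
  have htot : ∑ f : Fin d → Option (Fin N), ∏ j, w (f j) = (1 + θ) ^ d := by
    rw [← hsum, Fintype.sum_pow]
  set G := (Finset.univ.filter fun f : Fin d → Option (Fin N) =>
      (((Finset.univ.filter fun j => f j ≠ none).card : ℕ) : ℝ) ≤ θ * d) with hG
  have hle : (G.card : ℝ) * Real.exp (-τ * (θ * d)) ≤ (1 + θ) ^ d := by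
    rw [← htot]
    calc (G.card : ℝ) * Real.exp (-τ * (θ * d)) = ∑ f ∈ G, Real.exp (-τ * (θ * d)) := by
          rw [Finset.sum_const, nsmul_eq_mul]
      _ ≤ ∑ f ∈ G, ∏ j, w (f j) := by
          apply Finset.sum_le_sum
          intro f hf
          rw [hprod]
          apply Real.exp_le_exp.mpr
          have := (Finset.mem_filter.mp hf).2
          nlinarith
      _ ≤ ∑ f : Fin d → Option (Fin N), ∏ j, w (f j) := by
          apply Finset.sum_le_sum_of_subset_of_nonneg (Finset.subset_univ _)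
          intro f _ _
          exact Finset.prod_nonneg fun j _ => hw0 _
  have h2 : (1 + θ) ^ d ≤ Real.exp (θ * d) := by
    have : 1 + θ ≤ Real.exp θ := by
      have := Real.add_one_le_exp θ
      linarith
    calc (1 + θ) ^ d ≤ (Real.exp θ) ^ d := pow_le_pow_left₀ (by linarith) this d
      _ = Real.exp (θ * d) := by rw [← Real.exp_nat_mul]; congr 1; ring
  have h3 : (G.card : ℝ) ≤ Real.exp (θ * d) * Real.exp (τ * (θ * d)) := by
    have e : Real.exp (-τ * (θ * d)) * Real.exp (τ * (θ * d)) = 1 := by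
      rw [← Real.exp_add]; simp
    calc (G.card : ℝ) = (G.card : ℝ) * (Real.exp (-τ * (θ * d)) * Real.exp (τ * (θ * d))) := by
          rw [e, mul_one]
      _ = ((G.card : ℝ) * Real.exp (-τ * (θ * d))) * Real.exp (τ * (θ * d)) := by ring
      _ ≤ Real.exp (θ * d) * Real.exp (τ * (θ * d)) := by
          apply mul_le_mul_of_nonneg_right (hle.trans h2) (Real.exp_pos _).le
  refine h3.trans (le_of_eq ?_)
  rw [← Real.exp_add]
  congr 1
  ring

/-- The main counting lemma: an `ε`-separated set for `ρ'_∞` is not much larger than an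
`ε'`-separated set for `ρ_1`, if `ρ' ≤ ρ` and `X` has a partition into `N` cells of
`ρ'`-diameter at most `ε/2`. -/
lemma counting {X : Type*} {ρ ρ' : X → X → ℝ}
    (h0 : ∀ x, ρ x x = 0) (hs : ∀ x y, ρ x y = ρ y x) (ht : ∀ x y z, ρ x z ≤ ρ x y + ρ y z)
    (h0' : ∀ x, ρ' x x = 0) (hs' : ∀ x y, ρ' x y = ρ' y x)
    (ht' : ∀ x y z, ρ' x z ≤ ρ' x y + ρ' y z)
    (hle : ∀ x y, ρ' x y ≤ ρ x y)
    {d N : ℕ} (hd : 0 < d) (hN : 0 < N) (c : X → Fin N) {ε ε' : ℝ} (hε : 0 < ε) (hε' : 0 < ε')
    (hεε : 2 * ε' ≤ ε) (hc : ∀ x y, c x = c y → ρ' x y ≤ ε / 2)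
    (S : Finset (Fin d → X))
    (hS : ∀ φ ∈ S, ∀ ψ ∈ S, φ ≠ ψ → ε ≤ supDist ρ' φ ψ) (M : ℝ)
    (hM : ∀ T : Finset (Fin d → X), T ⊆ S →
      (∀ φ ∈ T, ∀ ψ ∈ T, φ ≠ ψ → ε' ≤ pDist ρ 1 φ ψ) → (T.card : ℝ) ≤ M) :
    (S.card : ℝ) ≤ M * Real.exp (d * ((2 * ε' / ε) *
      (Real.log N - Real.log (2 * ε' / ε) + 1))) := by
  classical
  have nn := nonneg_of h0 hs ht
  have nn' := nonneg_of h0' hs' ht'
  have hdr : (0 : ℝ) < d := by exact_mod_cast hd
  have : Nonempty (Fin d) := ⟨⟨0, hd⟩⟩
  set θ : ℝ := 2 * ε' / ε with hθ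
  have hθ0 : 0 < θ := by positivity
  have hθ1 : θ ≤ 1 := by rw [hθ, div_le_one hε]; exact hεε
  -- a maximal separated subset
  let P : Finset (Finset (Fin d → X)) := S.powerset.filter fun T =>
    ∀ φ ∈ T, ∀ ψ ∈ T, φ ≠ ψ → ε' ≤ pDist ρ 1 φ ψ
  have hPne : P.Nonempty := ⟨∅, by simp [P]⟩
  obtain ⟨T, hTP, hTmax⟩ := Finset.exists_max_image P (fun T => T.card) hPne
  have hTS : T ⊆ S := Finset.mem_powerset.mp (Finset.mem_filter.mp hTP).1
  have hTsep := (Finset.mem_filter.mp hTP).2
  have pself : ∀ φ : Fin d → X, pDist ρ 1 φ φ = 0 := by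
    intro φ
    simp [pDist, h0]
  have psymm : ∀ φ ψ : Fin d → X, pDist ρ 1 φ ψ = pDist ρ 1 ψ φ := by
    intro φ ψ
    simp only [pDist]
    congr 2
    exact Finset.sum_congr rfl fun j _ => by rw [hs]
  have hnear : ∀ φ ∈ S, ∃ ψ ∈ T, pDist ρ 1 φ ψ < ε' := by
    intro φ hφ
    by_contra hcon
    push Not at hcon
    have hnot : φ ∉ T := by
      intro hmem
      have := hcon φ hmem
      rw [pself] at this
      linarith
    have hins : insert φ T ∈ P := by
      refine Finset.mem_filter.mpr ⟨Finset.mem_powerset.mpr ?_, ?_⟩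
      · intro χ hχ
        rcases Finset.mem_insert.mp hχ with rfl | h
        · exact hφ
        · exact hTS h
      · intro a ha b hb hab
        rcases Finset.mem_insert.mp ha with rfl | ha'
        · rcases Finset.mem_insert.mp hb with rfl | hb'
          · exact absurd rfl hab
          · exact hcon b hb'
        · rcases Finset.mem_insert.mp hb with rfl | hb'
          · rw [psymm]; exact hcon a ha'
          · exact hTsep a ha' b hb' hab
    have := hTmax _ hins
    rw [Finset.card_insert_of_notMem hnot] at this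
    omega
  choose! near hnearT hnearD using hnear
  let code : (Fin d → X) → (Fin d → Option (Fin N)) := fun φ j =>
    if ρ' (φ j) (near φ j) < ε / 2 then none else some (c (φ j))
  let G := (Finset.univ.filter fun f : Fin d → Option (Fin N) =>
      (((Finset.univ.filter fun j => f j ≠ none).card : ℕ) : ℝ) ≤ θ * d)
  have hmaps : ∀ φ ∈ S, ((near φ, code φ) : (Fin d → X) × (Fin d → Option (Fin N))) ∈
      T ×ˢ G := by
    intro φ hφ
    refine Finset.mem_product.mpr ⟨hnearT φ hφ, Finset.mem_filter.mpr ⟨Finset.mem_univ _, ?_⟩⟩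
    have hD := hnearD φ hφ
    have hD' : (∑ j, ρ (φ j) (near φ j)) < ε' * d := by
      simp only [pDist, Real.rpow_one, div_one] at hD
      rw [one_div, inv_mul_lt_iff₀ hdr] at hD
      linarith
    set J := Finset.univ.filter fun j => code φ j ≠ none with hJ
    have hJ2 : ∀ j ∈ J, ε / 2 ≤ ρ (φ j) (near φ j) := by
      intro j hj
      have : code φ j ≠ none := (Finset.mem_filter.mp hj).2
      by_contra hlt
      push Not at hlt
      apply this
      have : ρ' (φ j) (near φ j) < ε / 2 := lt_of_le_of_lt (hle _ _) hlt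
      simp only [code, this, if_true]
    have : (J.card : ℝ) * (ε / 2) ≤ ε' * d := by
      calc (J.card : ℝ) * (ε / 2) = ∑ j ∈ J, ε / 2 := by rw [Finset.sum_const, nsmul_eq_mul]
        _ ≤ ∑ j ∈ J, ρ (φ j) (near φ j) := Finset.sum_le_sum hJ2
        _ ≤ ∑ j, ρ (φ j) (near φ j) :=
          Finset.sum_le_sum_of_subset_of_nonneg (Finset.subset_univ _) fun _ _ _ => nn _ _
        _ ≤ ε' * d := hD'.le
    show (J.card : ℝ) ≤ θ * d
    rw [hθ, div_mul_eq_mul_div, le_div_iff₀ hε]
    linarith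
  have hinj : Set.InjOn (fun φ => ((near φ, code φ) : (Fin d → X) × (Fin d → Option (Fin N))))
      (S : Set (Fin d → X)) := by
    intro φ hφ ψ hψ heq
    by_contra hne
    have h1 : near φ = near ψ := (Prod.mk.inj heq).1
    have h2 : code φ = code ψ := (Prod.mk.inj heq).2
    have hsep := hS φ hφ ψ hψ hne
    obtain ⟨j, hj⟩ := exists_eq_ciSup_of_finite (f := fun j => ρ' (φ j) (ψ j))
    have hj' : ε ≤ ρ' (φ j) (ψ j) := by
      have : supDist ρ' φ ψ = ρ' (φ j) (ψ j) := hj.symm
      linarith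
    have h2j : code φ j = code ψ j := by rw [h2]
    simp only [code] at h2j
    by_cases ha : ρ' (φ j) (near φ j) < ε / 2
    · by_cases hb : ρ' (ψ j) (near ψ j) < ε / 2
      · have t := ht' (φ j) (near φ j) (ψ j)
        rw [hs' (near φ j) (ψ j)] at t
        rw [← h1] at hb
        linarith
      · rw [if_pos ha, if_neg hb] at h2j
        exact absurd h2j (by simp)
    · by_cases hb : ρ' (ψ j) (near ψ j) < ε / 2
      · rw [if_neg ha, if_pos hb] at h2j
        exact absurd h2j (by simp)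
      · rw [if_neg ha, if_neg hb] at h2j
        have := hc _ _ (Option.some.inj h2j)
        linarith
  have hcard : S.card ≤ (T ×ˢ G).card := Finset.card_le_card_of_injOn _ hmaps hinj
  rw [Finset.card_product] at hcard
  have hG := card_codes d N hN θ hθ0 hθ1
  have hTM : (T.card : ℝ) ≤ M := hM T hTS hTsep
  calc (S.card : ℝ) ≤ (T.card : ℝ) * (G.card : ℝ) := by exact_mod_cast hcard
    _ ≤ M * Real.exp (d * (θ * (Real.log N - Real.log θ + 1))) := by
        apply mul_le_mul hTM hG (by positivity)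
        exact le_trans (by positivity) hTM

end Pool.Agent.N219.PM
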