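import Mathlib

/-!
# The `p`-metric mean dimension of an action of a countable sofic group: definitions

Everything follows the setting of problem `MP_9d0111_an`.
-/

open Filter Topology
open scoped ENNReal

namespace Pool.Agent.N219.PM

/-- A sofic approximation of the group `Γ`: maps `σ i : Γ → Sym (d i)` with `d i → ∞`, which are
asymptotically multiplicative, and such that every `s ≠ 1` asymptotically has no fixed points. -/
structure SoficApprox (Γ : Type*) [Group Γ] where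
  /-- the sizes -/
  d : ℕ → ℕ
  /-- the maps to the symmetric groups -/
  σ : ∀ i, Γ → Equiv.Perm (Fin (d i))
  tendsto_d : Tendsto d atTop atTop
  tendsto_mul : ∀ s t : Γ, Tendsto
    (fun i => (Nat.card {j : Fin (d i) // σ i (s * t) j = σ i s (σ i t j)} : ℝ) / (d i : ℝ))
    atTop (𝓝 1)
  tendsto_free : ∀ s : Γ, s ≠ 1 → Tendsto
    (fun i => (Nat.card {j : Fin (d i) // σ i s j = j} : ℝ) / (d i : ℝ)) atTop (𝓝 0)

/-- A dynamically generating continuous pseudometric on `X`. -/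
structure DynGen (Γ X : Type*) [Group Γ] [TopologicalSpace X] [MulAction Γ X] where
  /-- the pseudometric -/
  ρ : X → X → ℝ
  self : ∀ x, ρ x x = 0
  symm : ∀ x y, ρ x y = ρ y x
  triangle : ∀ x y z, ρ x z ≤ ρ x y + ρ y z
  cont : Continuous fun q : X × X => ρ q.1 q.2
  gen : ∀ x y, x ≠ y → ∃ s : Γ, 0 < ρ (s • x) (s • y)

/-- `ρ_p (φ, ψ) = ((1/d) ∑_j ρ(φ(j), ψ(j))^p)^(1/p)` on maps `φ, ψ : {1,…,d} → X`. -/
noncomputable def pDist {X : Type*} (ρ : X → X → ℝ) (p : ℝ) {d : ℕ} (φ ψ : Fin d → X) : ℝ :=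
  ((1 / (d : ℝ)) * ∑ j, ρ (φ j) (ψ j) ^ p) ^ (1 / p)

/-- `ρ_∞ (φ, ψ) = max_j ρ(φ(j), ψ(j))`. -/
noncomputable def supDist {X : Type*} (ρ : X → X → ℝ) {d : ℕ} (φ ψ : Fin d → X) : ℝ :=
  ⨆ j, ρ (φ j) (ψ j)

/-- `Map(ρ, F, δ, σ)`: the maps `φ : {1,…,d} → X` with `ρ_2 (φ ∘ σ(s), s φ) ≤ δ` for `s ∈ F`. -/
def MapSet {Γ X : Type*} [Group Γ] [MulAction Γ X] (ρ : X → X → ℝ) (F : Finset Γ) (δ : ℝ)
    {d : ℕ} (σ : Γ → Equiv.Perm (Fin d)) : Set (Fin d → X) :=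
  {φ | ∀ s ∈ F, pDist ρ 2 (fun j => φ (σ s j)) (fun j => s • φ j) ≤ δ}

/-- `N_ε(Y, θ)`: the supremum of the cardinalities of the finite `ε`-separated subsets of `Y`
for `θ` (distinct points at `θ`-distance at least `ε`). -/
noncomputable def sepNum {Z : Type*} (θ : Z → Z → ℝ) (ε : ℝ) (Y : Set Z) : ℝ≥0∞ :=
  ⨆ (S : Finset Z) (_ : (S : Set Z) ⊆ Y ∧ ∀ φ ∈ S, ∀ ψ ∈ S, φ ≠ ψ → ε ≤ θ φ ψ), (S.card : ℝ≥0∞)

/-- The lower limit, as `ε → 0`, of the infimum over finite `F` and `δ > 0` of the upper limit in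
`i` of `log N_ε(Map(ρ, F, δ, σ_i), θ) / (d_i log (1/ε))`, with `log 0 = -∞`. -/
noncomputable def mdimOf {Γ X : Type*} [Group Γ] [MulAction Γ X] (A : SoficApprox Γ)
    (ρ : X → X → ℝ) (θ : ∀ d : ℕ, (Fin d → X) → (Fin d → X) → ℝ) : EReal :=
  liminf (fun ε : ℝ => ⨅ (F : Finset Γ) (δ : ℝ) (_ : 0 < δ),
    limsup (fun i => ENNReal.log (sepNum (θ (A.d i)) ε (MapSet ρ F δ (A.σ i))) /
      (((A.d i : ℝ) * Real.log (1 / ε) : ℝ) : EReal)) atTop) (𝓝[>] 0)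

/-- The `p`-metric mean dimension `mdim_{Σ,M,p}(X, Γ)` for a real `p`. -/
noncomputable def mdimP {Γ : Type*} [Group Γ] (A : SoficApprox Γ) (X : Type*)
    [TopologicalSpace X] [MulAction Γ X] (p : ℝ) : EReal :=
  ⨅ ρ : DynGen Γ X, mdimOf A ρ.ρ (fun _ => pDist ρ.ρ p)

/-- The sofic metric mean dimension `mdim_{Σ,M}(X, Γ)` (the case `p = ∞`). -/
noncomputable def mdimM {Γ : Type*} [Group Γ] (A : SoficApprox Γ) (X : Type*)
    [TopologicalSpace X] [MulAction Γ X] : EReal :=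
  ⨅ ρ : DynGen Γ X, mdimOf A ρ.ρ (fun _ => supDist ρ.ρ)

end Pool.Agent.N219.PM
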