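import Pool.Agent.N219.PM.Defs
import Pool.Agent.N219.PM.Count

/-!
# Comparison of the map spaces of two pseudometrics
-/

open Filter Topology
open scoped ENNReal

namespace Pool.Agent.N219.PM

variable {Γ X : Type*} [Group Γ] [TopologicalSpace X] [CompactSpace X] [MulAction Γ X]
  [ContinuousConstSMul Γ X]

lemma exists_bound {ρ : X → X → ℝ} (hc : Continuous fun q : X × X => ρ q.1 q.2) :
    ∃ D : ℝ, 0 < D ∧ ∀ x y, |ρ x y| ≤ D := by
  obtain ⟨C, hC⟩ := (isCompact_univ : IsCompact (Set.univ : Set (X × X))).exists_bound_of_continuousOn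
    (f := fun q : X × X => ρ q.1 q.2) hc.continuousOn
  refine ⟨max C 1, lt_max_of_lt_right one_pos, fun x y => ?_⟩
  exact (hC (x, y) (Set.mem_univ _)).trans (le_max_left _ _)

/-- a quantitative form of dynamical generation -/
lemma gen_quant (R R' : DynGen Γ X) (η : ℝ) (hη : 0 < η) :
    ∃ (E : Finset Γ) (C : ℝ), 0 < C ∧ ∀ x y,
      R.ρ x y ^ 2 ≤ η + C * ∑ t ∈ E, R'.ρ (t • x) (t • y) ^ 2 := by
  classical
  obtain ⟨D, hD0, hD⟩ := exists_bound R.cont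
  have hcs : ∀ t : Γ, Continuous fun q : X × X => R'.ρ (t • q.1) (t • q.2) := fun t =>
    R'.cont.comp ((continuous_fst.const_smul t).prodMk (continuous_snd.const_smul t))
  set K : Set (X × X) := {q | η ≤ R.ρ q.1 q.2 ^ 2} with hK
  have hKc : IsCompact K := (isClosed_le continuous_const (R.cont.pow 2)).isCompact
  have hcover : K ⊆ ⋃ t : Γ, {q : X × X | 0 < R'.ρ (t • q.1) (t • q.2)} := by
    intro q hq
    have hne : q.1 ≠ q.2 := by
      intro h
      have hq' : η ≤ R.ρ q.1 q.2 ^ 2 := hq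
      rw [h, R.self] at hq'
      norm_num at hq'
      linarith
    obtain ⟨s, hs⟩ := R'.gen _ _ hne
    exact Set.mem_iUnion.mpr ⟨s, hs⟩
  obtain ⟨E, hE⟩ := hKc.elim_finite_subcover _
    (fun t => isOpen_lt continuous_const (hcs t)) hcover
  set h : X × X → ℝ := fun q => ∑ t ∈ E, R'.ρ (t • q.1) (t • q.2) ^ 2 with hh
  have hhc : Continuous h := continuous_finsetSum _ fun t _ => (hcs t).pow 2
  have hpos : ∀ q ∈ K, 0 < h q := by
    intro q hq
    obtain ⟨t, ht⟩ := Set.mem_iUnion.mp (hE hq)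
    obtain ⟨htE, ht'⟩ := Set.mem_iUnion.mp ht
    have ht'' : 0 < R'.ρ (t • q.1) (t • q.2) := ht'
    exact Finset.sum_pos' (fun s _ => sq_nonneg _) ⟨t, htE, by positivity⟩
  have hmin : ∃ c0 : ℝ, 0 < c0 ∧ ∀ q ∈ K, c0 ≤ h q := by
    rcases K.eq_empty_or_nonempty with he | hne
    · exact ⟨1, one_pos, by simp [he]⟩
    · obtain ⟨q0, hq0, hq0'⟩ := hKc.exists_isMinOn hne hhc.continuousOn
      exact ⟨h q0, hpos q0 hq0, fun q hq => hq0' hq⟩
  obtain ⟨c0, hc0, hmin⟩ := hmin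
  refine ⟨E, D ^ 2 / c0, by positivity, fun x y => ?_⟩
  have hsum0 : 0 ≤ ∑ t ∈ E, R'.ρ (t • x) (t • y) ^ 2 := Finset.sum_nonneg fun t _ => sq_nonneg _
  by_cases hxy : (x, y) ∈ K
  · have h1 : c0 ≤ ∑ t ∈ E, R'.ρ (t • x) (t • y) ^ 2 := hmin _ hxy
    have h2 : R.ρ x y ^ 2 ≤ D ^ 2 := by
      rw [← sq_abs]
      exact pow_le_pow_left₀ (abs_nonneg _) (hD x y) 2
    have h3 : D ^ 2 ≤ D ^ 2 / c0 * ∑ t ∈ E, R'.ρ (t • x) (t • y) ^ 2 := by
      rw [div_mul_eq_mul_div, le_div_iff₀ hc0]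
      exact mul_le_mul_of_nonneg_left h1 (sq_nonneg _)
    linarith
  · have h1 : R.ρ x y ^ 2 < η := by
      simpa [hK] using hxy
    have h2 : 0 ≤ D ^ 2 / c0 * ∑ t ∈ E, R'.ρ (t • x) (t • y) ^ 2 := by positivity
    linarith

lemma pDist_two_le_iff {X : Type*} {ρ : X → X → ℝ} {d : ℕ} (hd : 0 < d) (φ ψ : Fin d → X)
    {δ : ℝ} (hδ : 0 ≤ δ) :
    pDist ρ 2 φ ψ ≤ δ ↔ ∑ j, ρ (φ j) (ψ j) ^ 2 ≤ δ ^ 2 * d := by
  have hdr : (0 : ℝ) < d := by exact_mod_cast hd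
  have e : ∀ j, ρ (φ j) (ψ j) ^ (2 : ℝ) = ρ (φ j) (ψ j) ^ 2 := fun j => by
    rw [← Real.rpow_natCast]; norm_num
  simp only [pDist, e]
  rw [← Real.sqrt_eq_rpow, Real.sqrt_le_left hδ, one_div, inv_mul_le_iff₀ hdr]
  constructor <;> intro h <;> linarith

/-- the number of `j` at which multiplicativity fails -/
lemma bad_card (A : SoficApprox Γ) (s t : Γ) (β : ℝ) (hβ : 0 < β) :
    ∀ᶠ i in atTop, ((Finset.univ.filter fun j => A.σ i (s * t) j ≠ A.σ i s (A.σ i t j)).card : ℝ) ≤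
      β * A.d i := by
  have h1 := A.tendsto_mul s t
  have h2 : ∀ᶠ i in atTop, 1 - β < (Nat.card {j : Fin (A.d i) // A.σ i (s * t) j =
      A.σ i s (A.σ i t j)} : ℝ) / (A.d i : ℝ) := h1.eventually_const_lt (by linarith)
  have h3 : ∀ᶠ i in atTop, 0 < A.d i := A.tendsto_d.eventually_gt_atTop 0
  filter_upwards [h2, h3] with i h2 h3
  have hdr : (0 : ℝ) < A.d i := by exact_mod_cast h3
  rw [lt_div_iff₀ hdr] at h2
  rw [Nat.card_eq_fintype_card, Fintype.card_subtype] at h2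
  have h4 := Finset.card_filter_add_card_filter_not (s := (Finset.univ : Finset (Fin (A.d i))))
    (fun j => A.σ i (s * t) j = A.σ i s (A.σ i t j))
  rw [Finset.card_univ, Fintype.card_fin] at h4
  have h5 : ((Finset.univ.filter fun j => A.σ i (s * t) j = A.σ i s (A.σ i t j)).card : ℝ) +
      ((Finset.univ.filter fun j => ¬ A.σ i (s * t) j = A.σ i s (A.σ i t j)).card : ℝ) =
      A.d i := by exact_mod_cast h4
  simp only [ne_eq]
  linarith

/-- The map spaces of `R'` with fine parameters are inside the map spaces of `R`. -/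
lemma map_subset (A : SoficApprox Γ) (R R' : DynGen Γ X) (F : Finset Γ) (δ : ℝ) (hδ : 0 < δ) :
    ∃ (F' : Finset Γ) (δ' : ℝ), 0 < δ' ∧ ∀ᶠ i in atTop,
      MapSet R'.ρ F' δ' (A.σ i) ⊆ MapSet R.ρ F δ (A.σ i) := by
  classical
  obtain ⟨E, C, hC, hEC⟩ := gen_quant R R' (δ ^ 2 / 2) (by positivity)
  obtain ⟨D, hD0, hD⟩ := exists_bound R'.cont
  set e : ℝ := E.card + 1 with he
  have he0 : 0 < e := by positivity
  set κ : ℝ := δ ^ 2 / (2 * (C * e * 9)) with hκ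
  have hκ0 : 0 < κ := by positivity
  refine ⟨E ∪ (E ×ˢ F).image (fun q => q.1 * q.2), Real.sqrt κ, Real.sqrt_pos.mpr hκ0, ?_⟩
  have hbad : ∀ᶠ i in atTop, ∀ t ∈ E, ∀ s ∈ F,
      ((Finset.univ.filter fun j => A.σ i (t * s) j ≠ A.σ i t (A.σ i s j)).card : ℝ) ≤
      (κ / D ^ 2) * A.d i := by
    rw [Filter.eventually_all_finset]
    intro t _
    rw [Filter.eventually_all_finset]
    intro s _
    exact bad_card A t s _ (by positivity)
  have h3 : ∀ᶠ i in atTop, 0 < A.d i := A.tendsto_d.eventually_gt_atTop 0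
  filter_upwards [hbad, h3] with i hbad hd φ hφ s hs
  have hdr : (0 : ℝ) < A.d i := by exact_mod_cast hd
  rw [pDist_two_le_iff hd _ _ hδ.le]
  have hφE : ∀ t ∈ E, ∑ j, R'.ρ (φ (A.σ i t j)) (t • φ j) ^ 2 ≤ κ * A.d i := by
    intro t ht
    have := hφ t (Finset.mem_union_left _ ht)
    rw [pDist_two_le_iff hd _ _ (Real.sqrt_nonneg _), Real.sq_sqrt hκ0.le] at this
    exact this
  have hφEs : ∀ t ∈ E, ∑ j, R'.ρ (φ (A.σ i (t * s) j)) ((t * s) • φ j) ^ 2 ≤ κ * A.d i := by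
    intro t ht
    have := hφ (t * s) (Finset.mem_union_right _
      (Finset.mem_image.mpr ⟨(t, s), Finset.mem_product.mpr ⟨ht, hs⟩, rfl⟩))
    rw [pDist_two_le_iff hd _ _ (Real.sqrt_nonneg _), Real.sq_sqrt hκ0.le] at this
    exact this
  have nn' := nonneg_of R'.self R'.symm R'.triangle
  have key : ∀ t ∈ E, ∑ j, R'.ρ (t • φ (A.σ i s j)) (t • s • φ j) ^ 2 ≤ 9 * κ * A.d i := by
    intro t ht
    have step : ∀ j, R'.ρ (t • φ (A.σ i s j)) (t • s • φ j) ^ 2 ≤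
        3 * R'.ρ (φ (A.σ i t (A.σ i s j))) (t • φ (A.σ i s j)) ^ 2 +
        3 * R'.ρ (φ (A.σ i t (A.σ i s j))) (φ (A.σ i (t * s) j)) ^ 2 +
        3 * R'.ρ (φ (A.σ i (t * s) j)) ((t * s) • φ j) ^ 2 := by
      intro j
      have t1 := R'.triangle (t • φ (A.σ i s j)) (φ (A.σ i t (A.σ i s j))) (t • s • φ j)
      have t2 := R'.triangle (φ (A.σ i t (A.σ i s j))) (φ (A.σ i (t * s) j)) (t • s • φ j)
      rw [R'.symm (t • φ (A.σ i s j)) (φ (A.σ i t (A.σ i s j)))] at t1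
      rw [smul_smul] at t1 t2 ⊢
      set a := R'.ρ (φ (A.σ i t (A.σ i s j))) (t • φ (A.σ i s j))
      set b := R'.ρ (φ (A.σ i t (A.σ i s j))) (φ (A.σ i (t * s) j))
      set c := R'.ρ (φ (A.σ i (t * s) j)) ((t * s) • φ j)
      have h0 := nn' (t • φ (A.σ i s j)) ((t * s) • φ j)
      have hle : R'.ρ (t • φ (A.σ i s j)) ((t * s) • φ j) ≤ a + b + c := by linarith
      have hsq : R'.ρ (t • φ (A.σ i s j)) ((t * s) • φ j) ^ 2 ≤ (a + b + c) ^ 2 :=
        pow_le_pow_left₀ h0 hle 2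
      nlinarith [sq_nonneg (a - b), sq_nonneg (b - c), sq_nonneg (a - c)]
    have s1 : ∑ j, R'.ρ (φ (A.σ i t (A.σ i s j))) (t • φ (A.σ i s j)) ^ 2 ≤ κ * A.d i := by
      rw [Equiv.sum_comp (A.σ i s) (fun k => R'.ρ (φ (A.σ i t k)) (t • φ k) ^ 2)]
      exact hφE t ht
    have s3 := hφEs t ht
    have s2 : ∑ j, R'.ρ (φ (A.σ i t (A.σ i s j))) (φ (A.σ i (t * s) j)) ^ 2 ≤ κ * A.d i := by
      set B := Finset.univ.filter fun j => A.σ i (t * s) j ≠ A.σ i t (A.σ i s j) with hB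
      calc ∑ j, R'.ρ (φ (A.σ i t (A.σ i s j))) (φ (A.σ i (t * s) j)) ^ 2
          ≤ ∑ j, (if j ∈ B then D ^ 2 else 0) := by
            apply Finset.sum_le_sum
            intro j _
            by_cases hj : j ∈ B
            · rw [if_pos hj, ← sq_abs]
              exact pow_le_pow_left₀ (abs_nonneg _) (hD _ _) 2
            · rw [if_neg hj]
              have : A.σ i (t * s) j = A.σ i t (A.σ i s j) := by
                by_contra hne
                exact hj (Finset.mem_filter.mpr ⟨Finset.mem_univ _, hne⟩)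
              rw [this, R'.self]
              norm_num
        _ = B.card * D ^ 2 := by
            rw [Finset.sum_ite_mem, Finset.univ_inter, Finset.sum_const, nsmul_eq_mul]
        _ ≤ ((κ / D ^ 2) * A.d i) * D ^ 2 :=
            mul_le_mul_of_nonneg_right (hbad t ht s hs) (sq_nonneg _)
        _ = κ * A.d i := by field_simp
    calc ∑ j, R'.ρ (t • φ (A.σ i s j)) (t • s • φ j) ^ 2 ≤
        ∑ j, (3 * R'.ρ (φ (A.σ i t (A.σ i s j))) (t • φ (A.σ i s j)) ^ 2 +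
        3 * R'.ρ (φ (A.σ i t (A.σ i s j))) (φ (A.σ i (t * s) j)) ^ 2 +
        3 * R'.ρ (φ (A.σ i (t * s) j)) ((t * s) • φ j) ^ 2) := Finset.sum_le_sum fun j _ => step j
      _ = 3 * (∑ j, R'.ρ (φ (A.σ i t (A.σ i s j))) (t • φ (A.σ i s j)) ^ 2) +
          3 * (∑ j, R'.ρ (φ (A.σ i t (A.σ i s j))) (φ (A.σ i (t * s) j)) ^ 2) +
          3 * (∑ j, R'.ρ (φ (A.σ i (t * s) j)) ((t * s) • φ j) ^ 2) := by
          rw [Finset.sum_add_distrib, Finset.sum_add_distrib, Finset.mul_sum, Finset.mul_sum,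
            Finset.mul_sum]
      _ ≤ 9 * κ * A.d i := by linarith
  calc ∑ j, R.ρ (φ (A.σ i s j)) (s • φ j) ^ 2
      ≤ ∑ j, (δ ^ 2 / 2 + C * ∑ t ∈ E, R'.ρ (t • φ (A.σ i s j)) (t • s • φ j) ^ 2) :=
        Finset.sum_le_sum fun j _ => hEC _ _
    _ = A.d i * (δ ^ 2 / 2) + C * ∑ t ∈ E, ∑ j, R'.ρ (t • φ (A.σ i s j)) (t • s • φ j) ^ 2 := by
        rw [Finset.sum_add_distrib, Finset.sum_const, Finset.card_univ, Fintype.card_fin,
          nsmul_eq_mul, ← Finset.mul_sum, Finset.sum_comm]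
    _ ≤ A.d i * (δ ^ 2 / 2) + C * ∑ t ∈ E, 9 * κ * A.d i := by
        gcongr with t ht
        exact key t ht
    _ = A.d i * (δ ^ 2 / 2) + C * E.card * 9 * κ * A.d i := by
        rw [Finset.sum_const, nsmul_eq_mul]; ring
    _ ≤ A.d i * (δ ^ 2 / 2) + C * e * 9 * κ * A.d i := by
        have : (E.card : ℝ) ≤ e := by rw [he]; linarith
        gcongr
    _ = δ ^ 2 * A.d i := by
        rw [hκ]
        field_simp
        ring

end Pool.Agent.N219.PM
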