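import Pool.Agent.N219.PM.Tame
import Pool.Agent.N219.PM.MapInc

/-!
# The `p`-metric mean dimension does not depend on `p`
-/

open Filter Topology
open scoped ENNReal

namespace Pool.Agent.N219.PM

lemma pDist_one_le {X : Type*} {ρ : X → X → ℝ} (nn : ∀ x y, 0 ≤ ρ x y) {p : ℝ} (hp : 1 ≤ p)
    {d : ℕ} (hd : 0 < d) (φ ψ : Fin d → X) : pDist ρ 1 φ ψ ≤ pDist ρ p φ ψ := by
  have hdr : (0 : ℝ) < d := by exact_mod_cast hd
  have h := Real.arith_mean_le_rpow_mean (Finset.univ : Finset (Fin d))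
    (fun _ => 1 / (d : ℝ)) (fun j => ρ (φ j) (ψ j)) (fun _ _ => by positivity)
    (by rw [Finset.sum_const, Finset.card_univ, Fintype.card_fin, nsmul_eq_mul]; field_simp)
    (fun _ _ => nn _ _) hp
  simp only [pDist, Real.rpow_one, div_one]
  rw [← Finset.mul_sum, ← Finset.mul_sum] at h
  exact h

lemma pDist_le_supDist {X : Type*} {ρ : X → X → ℝ} (nn : ∀ x y, 0 ≤ ρ x y) {p : ℝ} (hp : 1 ≤ p)
    {d : ℕ} (hd : 0 < d) (φ ψ : Fin d → X) : pDist ρ p φ ψ ≤ supDist ρ φ ψ := by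
  have hdr : (0 : ℝ) < d := by exact_mod_cast hd
  have hp0 : 0 < p := by linarith
  set M := supDist ρ φ ψ with hM
  have hle : ∀ j, ρ (φ j) (ψ j) ≤ M := fun j =>
    le_ciSup (f := fun j => ρ (φ j) (ψ j)) (Set.finite_range _).bddAbove j
  have hM0 : 0 ≤ M := (nn _ _).trans (hle ⟨0, hd⟩)
  have h1 : (1 / (d : ℝ)) * ∑ j, ρ (φ j) (ψ j) ^ p ≤ M ^ p := by
    calc (1 / (d : ℝ)) * ∑ j, ρ (φ j) (ψ j) ^ p ≤ (1 / (d : ℝ)) * ∑ _j : Fin d, M ^ p := by
          apply mul_le_mul_of_nonneg_left _ (by positivity)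
          exact Finset.sum_le_sum fun j _ => Real.rpow_le_rpow (nn _ _) (hle j) hp0.le
      _ = M ^ p := by
          rw [Finset.sum_const, Finset.card_univ, Fintype.card_fin, nsmul_eq_mul]; field_simp
  calc pDist ρ p φ ψ = ((1 / (d : ℝ)) * ∑ j, ρ (φ j) (ψ j) ^ p) ^ (1 / p) := rfl
    _ ≤ (M ^ p) ^ (1 / p) := by
        apply Real.rpow_le_rpow _ h1 (by positivity)
        apply mul_nonneg (by positivity)
        exact Finset.sum_nonneg fun j _ => Real.rpow_nonneg (nn _ _) _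
    _ = M := by rw [← Real.rpow_mul hM0]; field_simp; simp

lemma log_sepNum_le_iff {Z : Type*} (θ : Z → Z → ℝ) (ε : ℝ) (Y : Set Z) (c : ℝ) :
    ENNReal.log (sepNum θ ε Y) ≤ (c : EReal) ↔
      ∀ S : Finset Z, (S : Set Z) ⊆ Y → (∀ φ ∈ S, ∀ ψ ∈ S, φ ≠ ψ → ε ≤ θ φ ψ) →
        (S.card : ℝ) ≤ Real.exp c := by
  have h1 : ENNReal.log (sepNum θ ε Y) ≤ (c : EReal) ↔ sepNum θ ε Y ≤ EReal.exp c := by
    conv_lhs => rw [← EReal.log_exp (c : EReal)]
    exact ENNReal.log_le_log_iff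
  rw [h1, EReal.exp_coe, sepNum]
  simp only [iSup_le_iff, and_imp]
  refine forall_congr' fun S => forall_congr' fun _ => forall_congr' fun _ => ?_
  rw [← ENNReal.ofReal_natCast, ENNReal.ofReal_le_ofReal_iff (Real.exp_pos _).le]

lemma sepNum_mono {Z : Type*} {θ θ' : Z → Z → ℝ} (h : ∀ φ ψ, θ φ ψ ≤ θ' φ ψ) (ε : ℝ)
    (Y : Set Z) : sepNum θ ε Y ≤ sepNum θ' ε Y := by
  unfold sepNum
  refine iSup_mono fun S => ?_
  refine iSup_le fun hS => ?_
  refine le_iSup_of_le ⟨hS.1, fun φ hφ ψ hψ hne => (hS.2 φ hφ ψ hψ hne).trans (h _ _)⟩ le_rfl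

lemma div_mono_EReal {a b : EReal} (h : a ≤ b) {c : ℝ} (hc : 0 ≤ c) :
    a / (c : EReal) ≤ b / (c : EReal) :=
  EReal.div_le_div_right_of_nonneg (by exact_mod_cast hc) h

lemma mdimOf_mono {Γ X : Type*} [Group Γ] [MulAction Γ X] (A : SoficApprox Γ)
    (ρ : X → X → ℝ) {θ θ' : ∀ d : ℕ, (Fin d → X) → (Fin d → X) → ℝ}
    (h : ∀ d, 0 < d → ∀ φ ψ, θ d φ ψ ≤ θ' d φ ψ) : mdimOf A ρ θ ≤ mdimOf A ρ θ' := by
  unfold mdimOf
  have h1 : ∀ᶠ ε : ℝ in 𝓝[>] 0, ε ∈ Set.Ioo (0 : ℝ) 1 := Ioo_mem_nhdsGT one_pos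
  refine liminf_le_liminf ?_
  filter_upwards [h1] with ε hε
  refine iInf_mono fun F => iInf_mono fun δ => iInf_mono fun _ => ?_
  refine limsup_le_limsup ?_
  filter_upwards [A.tendsto_d.eventually_gt_atTop 0] with i hi
  apply div_mono_EReal
  · exact ENNReal.log_monotone (sepNum_mono (h _ hi) _ _)
  · apply mul_nonneg (by positivity)
    apply Real.log_nonneg
    rw [one_div]
    exact (one_le_inv₀ hε.1).mpr hε.2.le

/-- numerical estimates -/
lemma numerics {u : ℝ} (hu1 : 1 ≤ u) (hu3 : 2 ≤ u ^ 3) :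
    ∃ m K : ℕ, 0 < K ∧
      1 / (K : ℝ) + (1 / 2 : ℝ) ^ m ≤ (Real.exp (-u) * u ^ 3) / 2 ∧
      (2 * Real.exp (-u) / (Real.exp (-u) * u ^ 3)) *
        (Real.log (((K + 1) ^ m : ℕ) : ℝ) -
          Real.log (2 * Real.exp (-u) / (Real.exp (-u) * u ^ 3)) + 1) ≤ 38 / u := by
  have hu0 : 0 < u := by linarith
  have hE : 0 < Real.exp (-u) := Real.exp_pos _
  refine ⟨⌈2 * u⌉₊ + 2, ⌈4 * Real.exp u⌉₊, Nat.ceil_pos.mpr (by positivity), ?_, ?_⟩
  · have h1 : 1 / (⌈4 * Real.exp u⌉₊ : ℝ) ≤ Real.exp (-u) / 4 := by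
      have : 4 * Real.exp u ≤ (⌈4 * Real.exp u⌉₊ : ℝ) := Nat.le_ceil _
      calc 1 / (⌈4 * Real.exp u⌉₊ : ℝ) ≤ 1 / (4 * Real.exp u) :=
            one_div_le_one_div_of_le (by positivity) this
        _ = Real.exp (-u) / 4 := by rw [Real.exp_neg]; field_simp
    have h2 : (1 / 2 : ℝ) ^ (⌈2 * u⌉₊ + 2) ≤ Real.exp (-u) / 4 := by
      rw [pow_add]
      have : (1 / 2 : ℝ) ^ ⌈2 * u⌉₊ ≤ Real.exp (-u) := by
        have hl2 : (0.6931471803 : ℝ) < Real.log 2 := Real.log_two_gt_d9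
        have hce : 2 * u ≤ (⌈2 * u⌉₊ : ℝ) := Nat.le_ceil _
        have : (1 / 2 : ℝ) ^ ⌈2 * u⌉₊ = Real.exp (-(⌈2 * u⌉₊ * Real.log 2)) := by
          rw [Real.exp_neg, mul_comm (⌈2 * u⌉₊ : ℝ) (Real.log 2), Real.exp_mul,
            Real.exp_log two_pos, Real.rpow_natCast]
          simp
        rw [this]
        apply Real.exp_le_exp.mpr
        nlinarith
      norm_num
      norm_num at this
      linarith
    have h3 : 1 ≤ u ^ 3 := by nlinarith
    nlinarith
  · have e1 : 2 * Real.exp (-u) / (Real.exp (-u) * u ^ 3) = 2 / u ^ 3 := by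
      field_simp
    rw [e1]
    set m := ⌈2 * u⌉₊ + 2 with hm
    set K := ⌈4 * Real.exp u⌉₊ with hK
    have hmle : (m : ℝ) ≤ 2 * u + 3 := by
      rw [hm]
      push_cast
      have := Nat.ceil_lt_add_one (a := 2 * u) (by positivity)
      linarith
    have hKle : (K : ℝ) + 1 ≤ 6 * Real.exp u := by
      have := Nat.ceil_lt_add_one (a := 4 * Real.exp u) (by positivity)
      have h1 : 1 ≤ Real.exp u := Real.one_le_exp hu0.le
      rw [hK]
      linarith
    have hlogK : Real.log ((K : ℝ) + 1) ≤ u + 2 := by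
      have h6 : (6 : ℝ) ≤ Real.exp 2 := by
        have := Real.exp_one_gt_d9
        have e : Real.exp 2 = Real.exp 1 * Real.exp 1 := by rw [← Real.exp_add]; norm_num
        rw [e]; nlinarith
      calc Real.log ((K : ℝ) + 1) ≤ Real.log (Real.exp (u + 2)) := by
            apply Real.log_le_log (by positivity)
            rw [Real.exp_add]
            nlinarith [Real.exp_pos u]
        _ = u + 2 := Real.log_exp _
    have hlogK0 : 0 ≤ Real.log ((K : ℝ) + 1) := Real.log_nonneg (by linarith [Nat.cast_nonneg (α := ℝ) K])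
    have hlogN : Real.log (((K + 1) ^ m : ℕ) : ℝ) ≤ (2 * u + 3) * (u + 2) := by
      push_cast
      rw [Real.log_pow]
      calc (m : ℝ) * Real.log ((K : ℝ) + 1) ≤ (2 * u + 3) * Real.log ((K : ℝ) + 1) := by gcongr
        _ ≤ (2 * u + 3) * (u + 2) := by gcongr
    have hlogθ : -Real.log (2 / u ^ 3) ≤ 3 * u := by
      rw [Real.log_div (by norm_num) (by positivity), Real.log_pow]
      have a : 0 ≤ Real.log 2 := Real.log_nonneg (by norm_num)
      have b : Real.log u ≤ u := (Real.log_le_sub_one_of_pos hu0).trans (by linarith)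
      push_cast
      linarith
    have htot : Real.log (((K + 1) ^ m : ℕ) : ℝ) - Real.log (2 / u ^ 3) + 1 ≤ 19 * u ^ 2 := by
      nlinarith
    calc (2 / u ^ 3) * (Real.log (((K + 1) ^ m : ℕ) : ℝ) - Real.log (2 / u ^ 3) + 1)
        ≤ (2 / u ^ 3) * (19 * u ^ 2) := by gcongr
      _ = 38 / u := by field_simp; norm_num

lemma eventually_num {c c1 : ℝ} (h : c1 < c) :
    ∀ᶠ u : ℝ in atTop, 1 ≤ u ∧ 2 ≤ u ^ 3 ∧ 0 < u - 3 * Real.log u ∧
      c1 * u + 38 / u ≤ c * (u - 3 * Real.log u) := by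
  set κ : ℝ := min (1 / 6) ((c - c1) / (6 * (|c| + 1))) with hκ
  have hκ0 : 0 < κ := by
    apply lt_min (by norm_num)
    have : 0 < c - c1 := by linarith
    positivity
  have hlog := Real.isLittleO_log_id_atTop.bound hκ0
  filter_upwards [hlog, eventually_ge_atTop 2, eventually_ge_atTop (76 / (c - c1))]
    with u h1 h2 h3
  have hu0 : 0 < u := by linarith
  have h1' : Real.log u ≤ κ * u := by
    have := (le_abs_self _).trans h1
    simpa [abs_of_pos hu0] using this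
  have hl0 : 0 ≤ Real.log u := Real.log_nonneg (by linarith)
  have hcc : 0 < c - c1 := by linarith
  refine ⟨by linarith, by nlinarith [sq_nonneg (u - 2), mul_pos hu0 hu0], ?_, ?_⟩
  · have : κ ≤ 1 / 6 := min_le_left _ _
    nlinarith
  · have hk2 : κ ≤ (c - c1) / (6 * (|c| + 1)) := min_le_right _ _
    have h4 : 3 * c * Real.log u ≤ (c - c1) / 2 * u := by
      have hc : c ≤ |c| := le_abs_self c
      have hc0 : 0 ≤ |c| := abs_nonneg c
      have s1 : 3 * c * Real.log u ≤ 3 * (|c| + 1) * Real.log u := by nlinarith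
      have s2 : 3 * (|c| + 1) * Real.log u ≤ 3 * (|c| + 1) * (κ * u) := by gcongr
      have s3 : 3 * (|c| + 1) * (κ * u) ≤ 3 * (|c| + 1) * ((c - c1) / (6 * (|c| + 1)) * u) := by
        gcongr
      have s4 : 3 * (|c| + 1) * ((c - c1) / (6 * (|c| + 1)) * u) = (c - c1) / 2 * u := by
        field_simp
        ring
      linarith
    have h5 : 38 / u ≤ (c - c1) / 2 * u := by
      have a : 38 / u ≤ 38 := by
        rw [div_le_iff₀ hu0]; linarith
      have b : 38 ≤ (c - c1) / 2 * u := by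
        rw [div_le_iff₀ hcc] at h3
        linarith
      linarith
    nlinarith

variable {Γ X : Type*} [Group Γ] [TopologicalSpace X] [CompactSpace X] [MulAction Γ X]
  [ContinuousConstSMul Γ X]

lemma tame_mdim_le (A : SoficApprox Γ) (R : DynGen Γ X) (w : ℕ → X) (hw : DenseRange w) :
    mdimOf A (tameDyn R w hw).ρ (fun _ => supDist (tameDyn R w hw).ρ) ≤
      mdimOf A R.ρ (fun _ => pDist R.ρ 1) := by
  set R' := tameDyn R w hw with hR'
  have nn := nonneg_of R.self R.symm R.triangle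
  apply EReal.le_of_forall_lt_iff_le.mp
  intro c hc
  obtain ⟨c1, hc1, hc1c⟩ := EReal.lt_iff_exists_real_btwn.mp hc
  have hc1c' : c1 < c := by exact_mod_cast hc1c
  have hfreq := frequently_lt_of_liminf_lt (by isBoundedDefault) hc1
  have hL : Tendsto (fun ε : ℝ => Real.log (1 / ε)) (𝓝[>] 0) atTop := by
    simp only [one_div]
    exact Real.tendsto_log_atTop.comp tendsto_inv_nhdsGT_zero
  have hev := hL.eventually (eventually_num hc1c')
  have hpos : ∀ᶠ ε : ℝ in 𝓝[>] 0, 0 < ε := eventually_mem_nhdsWithin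
  set G : ℝ → ℝ := fun ε => ε * (Real.log (1 / ε)) ^ 3 with hG
  have hGeq : ∀ ε : ℝ, 0 < ε → G ε = Real.exp (-(Real.log (1 / ε))) * (Real.log (1 / ε)) ^ 3 := by
    intro ε hε
    rw [hG]
    simp only
    congr 1
    rw [one_div, Real.log_inv, neg_neg, Real.exp_log hε]
  have hGt : Tendsto G (𝓝[>] 0) (𝓝[>] 0) := by
    apply tendsto_nhdsWithin_of_tendsto_nhds_of_eventually_within
    · have h1 : Tendsto (fun ε : ℝ => (fun u : ℝ => u ^ 3 * Real.exp (-u)) (Real.log (1 / ε)))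
          (𝓝[>] 0) (𝓝 0) := (Real.tendsto_pow_mul_exp_neg_atTop_nhds_zero 3).comp hL
      refine h1.congr' ?_
      filter_upwards [hpos] with ε hε
      rw [hGeq ε hε]
      ring
    · filter_upwards [hpos, hev] with ε hε h
      have : 0 < Real.log (1 / ε) := by linarith [h.1]
      show 0 < ε * (Real.log (1 / ε)) ^ 3
      positivity
  refine liminf_le_of_frequently_le ?_ (by isBoundedDefault)
  refine hGt.frequently ?_
  refine (hfreq.and_eventually (hev.and hpos)).mono ?_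
  rintro ε' ⟨hlt, ⟨hu1, hu3, hul, hucc⟩, hε'⟩
  set u := Real.log (1 / ε') with hu
  have hε'u : ε' = Real.exp (-u) := by
    rw [hu, one_div, Real.log_inv, neg_neg, Real.exp_log hε']
  have hGu : G ε' = Real.exp (-u) * u ^ 3 := hGeq ε' hε'
  have hu0 : 0 < u := by linarith
  have hlogG : Real.log (1 / G ε') = u - 3 * Real.log u := by
    rw [hGu, one_div, Real.log_inv, Real.log_mul (Real.exp_pos _).ne' (by positivity),
      Real.log_exp, Real.log_pow]
    push_cast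
    ring
  simp only [iInf_lt_iff] at hlt
  obtain ⟨F, δ, hδ, hlim⟩ := hlt
  have hev2 := eventually_lt_of_limsup_lt hlim (by isBoundedDefault)
  obtain ⟨F', δ', hδ', hsub⟩ := map_subset A R R' F δ hδ
  refine iInf_le_of_le F' (iInf_le_of_le δ' (iInf_le_of_le hδ' ?_))
  apply limsup_le_of_le (by isBoundedDefault)
  filter_upwards [hev2, hsub, A.tendsto_d.eventually_gt_atTop 0] with i hi1 hi2 hi3
  have hdr : (0 : ℝ) < A.d i := by exact_mod_cast hi3
  rw [hlogG]
  rw [EReal.div_le_iff_le_mul (by exact_mod_cast (by positivity)) (EReal.coe_ne_top _)]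
  rw [← EReal.coe_mul, log_sepNum_le_iff]
  have hi1' : ENNReal.log (sepNum (pDist R.ρ 1) ε' (MapSet R.ρ F δ (A.σ i))) ≤
      (((A.d i : ℝ) * u * c1 : ℝ) : EReal) := by
    have := (EReal.div_le_iff_le_mul (a := ENNReal.log (sepNum (pDist R.ρ 1) ε'
      (MapSet R.ρ F δ (A.σ i)))) (b := (((A.d i : ℝ) * u : ℝ) : EReal)) (c := (c1 : EReal))
      (by exact_mod_cast (by positivity)) (EReal.coe_ne_top _)).mp hi1.le
    rw [← EReal.coe_mul] at this
    exact this
  rw [log_sepNum_le_iff] at hi1'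
  intro S hS hsep
  obtain ⟨m, K, hK, hK2, hK3⟩ := numerics hu1 hu3
  obtain ⟨cell, hcell⟩ := tame_cells nn w m K hK
  have hcount := counting (ρ := R.ρ) (ρ' := R'.ρ) R.self R.symm R.triangle R'.self R'.symm
    R'.triangle (tame_le R.self R.symm R.triangle w) hi3 (N := (K + 1) ^ m) (by positivity) cell
    (ε := G ε') (ε' := ε') (by rw [hGu]; positivity) hε'
    (by rw [hGu, ← hε'u]; nlinarith)
    (fun x y hxy => (hcell x y hxy).trans (by rw [hGu]; exact hK2)) S hsep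
    (Real.exp ((A.d i : ℝ) * u * c1))
    (fun T hT hTsep => hi1' T (fun φ hφ => hi2 (hS (hT hφ))) hTsep)
  refine hcount.trans ?_
  rw [← Real.exp_add]
  apply Real.exp_le_exp.mpr
  rw [hGu]
  conv_lhs => rw [hε'u]
  have h1 : (A.d i : ℝ) * u * c1 + A.d i * (38 / u) ≤
      (A.d i : ℝ) * (u - 3 * Real.log u) * c := by nlinarith
  refine le_trans ?_ h1
  gcongr

/-- The `p`-metric mean dimension is independent of `p`. -/
theorem mdimP_eq_mdimM [TopologicalSpace.MetrizableSpace X] (A : SoficApprox Γ) (p : ℝ)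
    (hp : 1 ≤ p) : mdimP A X p = mdimM A X := by
  apply le_antisymm
  · exact iInf_mono fun R => mdimOf_mono A R.ρ fun d hd φ ψ =>
      pDist_le_supDist (nonneg_of R.self R.symm R.triangle) hp hd φ ψ
  · refine le_iInf fun R => ?_
    have nn := nonneg_of R.self R.symm R.triangle
    rcases isEmpty_or_nonempty X with hX | hX
    · exact (iInf_le _ R).trans (mdimOf_mono A R.ρ fun d hd φ ψ => (hX.false (φ ⟨0, hd⟩)).elim)
    · let _ := TopologicalSpace.metrizableSpaceMetric X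
      obtain ⟨w, hw⟩ := TopologicalSpace.exists_dense_seq X
      calc mdimM A X ≤ mdimOf A (tameDyn R w hw).ρ (fun _ => supDist (tameDyn R w hw).ρ) :=
            iInf_le _ (tameDyn R w hw)
        _ ≤ mdimOf A R.ρ (fun _ => pDist R.ρ 1) := tame_mdim_le A R w hw
        _ ≤ mdimOf A R.ρ (fun _ => pDist R.ρ p) :=
            mdimOf_mono A R.ρ fun d hd φ ψ => pDist_one_le nn hp hd φ ψ

end Pool.Agent.N219.PM
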