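import Pool.Agent.N219.PM.Count

/-!
# A dominated pseudometric with tame growth
-/

open Filter Topology
open scoped ENNReal

namespace Pool.Agent.N219.PM

set_option linter.unusedSectionVars false

variable {Γ X : Type*} [Group Γ] [TopologicalSpace X] [MulAction Γ X]

/-- the truncated distance to the `n`-th point of a sequence -/
noncomputable def gfun (ρ : X → X → ℝ) (u : ℕ → X) (n : ℕ) (x : X) : ℝ := min (ρ x (u n)) 1

/-- `ρ'(x, y) = ∑ 2^{-n-1} |g_n(x) - g_n(y)|` -/
noncomputable def tameFun (ρ : X → X → ℝ) (u : ℕ → X) (x y : X) : ℝ :=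
  ∑' n : ℕ, (1 / 2 : ℝ) ^ (n + 1) * |gfun ρ u n x - gfun ρ u n y|

lemma gfun_nonneg {ρ : X → X → ℝ} (nn : ∀ x y, 0 ≤ ρ x y) (u : ℕ → X) (n : ℕ) (x : X) :
    0 ≤ gfun ρ u n x := le_min (nn _ _) zero_le_one

lemma gfun_le_one (ρ : X → X → ℝ) (u : ℕ → X) (n : ℕ) (x : X) :
    gfun ρ u n x ≤ 1 := min_le_right _ _

lemma gfun_diff_le_one {ρ : X → X → ℝ} (nn : ∀ x y, 0 ≤ ρ x y) (u : ℕ → X) (n : ℕ) (x y : X) :
    |gfun ρ u n x - gfun ρ u n y| ≤ 1 := by
  have a := gfun_nonneg nn u n x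
  have b := gfun_nonneg nn u n y
  have c := gfun_le_one ρ u n x
  have d := gfun_le_one ρ u n y
  rw [abs_le]; constructor <;> linarith

lemma gfun_diff_le {ρ : X → X → ℝ} (hs : ∀ x y, ρ x y = ρ y x)
    (ht : ∀ x y z, ρ x z ≤ ρ x y + ρ y z) (u : ℕ → X) (n : ℕ) (x y : X) :
    |gfun ρ u n x - gfun ρ u n y| ≤ ρ x y := by
  have h1 : |ρ x (u n) - ρ y (u n)| ≤ ρ x y := by
    have a := ht x y (u n)
    have b := ht y x (u n)
    rw [hs y x] at b
    rw [abs_le]; constructor <;> linarith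
  refine le_trans ?_ h1
  exact abs_min_sub_min_le_max _ _ _ _ |>.trans (by simp)

lemma summable_term {ρ : X → X → ℝ} (nn : ∀ x y, 0 ≤ ρ x y) (u : ℕ → X) (x y : X) :
    Summable fun n : ℕ => (1 / 2 : ℝ) ^ (n + 1) * |gfun ρ u n x - gfun ρ u n y| := by
  apply Summable.of_nonneg_of_le (f := fun n : ℕ => (1 / 2 : ℝ) ^ (n + 1))
  · intro n; positivity
  · intro n
    have := gfun_diff_le_one nn u n x y
    have p : (0 : ℝ) ≤ (1 / 2 : ℝ) ^ (n + 1) := by positivity
    nlinarith
  · exact (summable_nat_add_iff 1).mpr summable_geometric_two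

lemma tsum_half : ∑' n : ℕ, (1 / 2 : ℝ) ^ (n + 1) = 1 := by
  have h := tsum_geometric_two
  have s := summable_geometric_two
  have : ∑' n : ℕ, (1 / 2 : ℝ) ^ (n + 1) = (1 / 2) * ∑' n : ℕ, (1 / 2 : ℝ) ^ n := by
    rw [← tsum_mul_left]
    congr 1; ext n; ring
  rw [this, h]; norm_num

lemma tame_le {ρ : X → X → ℝ} (h0 : ∀ x, ρ x x = 0) (hs : ∀ x y, ρ x y = ρ y x)
    (ht : ∀ x y z, ρ x z ≤ ρ x y + ρ y z) (u : ℕ → X) (x y : X) :
    tameFun ρ u x y ≤ ρ x y := by
  have nn := nonneg_of h0 hs ht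
  calc tameFun ρ u x y ≤ ∑' n : ℕ, (1 / 2 : ℝ) ^ (n + 1) * ρ x y := by
        apply Summable.tsum_le_tsum _ (summable_term nn u x y)
        · exact ((summable_nat_add_iff 1).mpr summable_geometric_two).mul_right _
        · intro n
          exact mul_le_mul_of_nonneg_left (gfun_diff_le hs ht u n x y) (by positivity)
    _ = ρ x y := by rw [tsum_mul_right, tsum_half, one_mul]

lemma tame_self (ρ : X → X → ℝ) (u : ℕ → X) (x : X) : tameFun ρ u x x = 0 := by
  simp [tameFun]

lemma tame_symm (ρ : X → X → ℝ) (u : ℕ → X) (x y : X) : tameFun ρ u x y = tameFun ρ u y x := by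
  simp only [tameFun]
  congr 1; ext n; rw [abs_sub_comm]

lemma tame_triangle {ρ : X → X → ℝ} (nn : ∀ x y, 0 ≤ ρ x y) (u : ℕ → X) (x y z : X) :
    tameFun ρ u x z ≤ tameFun ρ u x y + tameFun ρ u y z := by
  simp only [tameFun]
  rw [← (summable_term nn u x y).tsum_add (summable_term nn u y z)]
  apply Summable.tsum_le_tsum _ (summable_term nn u x z)
    ((summable_term nn u x y).add (summable_term nn u y z))
  intro n
  rw [← mul_add]
  exact mul_le_mul_of_nonneg_left (abs_sub_le _ _ _) (by positivity)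

lemma gfun_cont {ρ : X → X → ℝ} (hc : Continuous fun q : X × X => ρ q.1 q.2) (u : ℕ → X) (n : ℕ) :
    Continuous (gfun ρ u n) := by
  unfold gfun
  exact (hc.comp (continuous_id.prodMk continuous_const)).min continuous_const

lemma tame_cont {ρ : X → X → ℝ} (nn : ∀ x y, 0 ≤ ρ x y)
    (hc : Continuous fun q : X × X => ρ q.1 q.2) (u : ℕ → X) :
    Continuous fun q : X × X => tameFun ρ u q.1 q.2 := by
  unfold tameFun
  apply continuous_tsum (u := fun n : ℕ => (1 / 2 : ℝ) ^ (n + 1))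
  · intro n
    exact continuous_const.mul (((gfun_cont hc u n).comp continuous_fst).sub
      ((gfun_cont hc u n).comp continuous_snd)).abs
  · exact (summable_nat_add_iff 1).mpr summable_geometric_two
  · intro n q
    rw [Real.norm_eq_abs, abs_of_nonneg (by positivity)]
    have := gfun_diff_le_one nn u n q.1 q.2
    have p : (0 : ℝ) ≤ (1 / 2 : ℝ) ^ (n + 1) := by positivity
    nlinarith

lemma tame_pos {ρ : X → X → ℝ} (h0 : ∀ x, ρ x x = 0) (hs : ∀ x y, ρ x y = ρ y x)
    (ht : ∀ x y z, ρ x z ≤ ρ x y + ρ y z)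
    (hc : Continuous fun q : X × X => ρ q.1 q.2) {u : ℕ → X} (hu : DenseRange u) {x y : X}
    (hxy : 0 < ρ x y) : 0 < tameFun ρ u x y := by
  have nn := nonneg_of h0 hs ht
  set r := min (ρ x y) 1 with hr
  have hr0 : 0 < r := lt_min hxy one_pos
  have hopen : IsOpen {z : X | ρ x z < r / 3} :=
    isOpen_lt (hc.comp (continuous_const.prodMk continuous_id)) continuous_const
  obtain ⟨n, hn⟩ := hu.exists_mem_open hopen ⟨x, by simp only [Set.mem_setOf_eq, h0]; linarith⟩
  have hn' : ρ x (u n) < r / 3 := hn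
  have g1 : gfun ρ u n x < r / 3 := lt_of_le_of_lt (min_le_left _ _) hn'
  have g2 : 2 * r / 3 ≤ gfun ρ u n y := by
    apply le_min
    · have t := ht x (u n) y
      rw [hs (u n) y] at t
      have : r ≤ ρ x y := min_le_left _ _
      linarith
    · have : r ≤ 1 := min_le_right _ _
      linarith
  have hterm : 0 < (1 / 2 : ℝ) ^ (n + 1) * |gfun ρ u n x - gfun ρ u n y| := by
    have : gfun ρ u n x - gfun ρ u n y ≠ 0 := by linarith
    positivity
  refine lt_of_lt_of_le hterm ?_
  exact (summable_term nn u x y).le_tsum n fun m _ => by positivity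

/-- covering by few cells of small diameter -/
lemma tame_cells {ρ : X → X → ℝ} (nn : ∀ x y, 0 ≤ ρ x y) (u : ℕ → X) (m K : ℕ) (hK : 0 < K) :
    ∃ c : X → Fin ((K + 1) ^ m), ∀ x y, c x = c y →
      tameFun ρ u x y ≤ 1 / K + (1 / 2 : ℝ) ^ m := by
  classical
  have hKr : (0 : ℝ) < K := by exact_mod_cast hK
  let c0 : X → (Fin m → Fin (K + 1)) := fun x n =>
    ⟨⌊K * gfun ρ u n x⌋₊, by
      apply Nat.lt_succ_of_le
      apply Nat.floor_le_of_le
      have := gfun_le_one ρ u n x
      nlinarith⟩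
  let e : (Fin m → Fin (K + 1)) ≃ Fin ((K + 1) ^ m) := by
    apply Fintype.equivFinOfCardEq
    simp
  refine ⟨fun x => e (c0 x), fun x y hxy => ?_⟩
  have hxy0 : c0 x = c0 y := e.injective hxy
  have hclose : ∀ n < m, |gfun ρ u n x - gfun ρ u n y| ≤ 1 / K := by
    intro n hn
    have h1 : (⌊K * gfun ρ u n x⌋₊ : ℕ) = ⌊K * gfun ρ u n y⌋₊ := by
      have := congrFun hxy0 ⟨n, hn⟩
      exact congrArg Fin.val this
    have a1 := Nat.floor_le (a := K * gfun ρ u n x) (mul_nonneg hKr.le (gfun_nonneg nn u n x))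
    have a2 := Nat.lt_floor_add_one (K * gfun ρ u n x)
    have b1 := Nat.floor_le (a := K * gfun ρ u n y) (mul_nonneg hKr.le (gfun_nonneg nn u n y))
    have b2 := Nat.lt_floor_add_one (K * gfun ρ u n y)
    rw [h1] at a1 a2
    rw [le_div_iff₀ hKr]
    have hm : |gfun ρ u n x - gfun ρ u n y| * K = |K * gfun ρ u n x - K * gfun ρ u n y| := by
      rw [← mul_sub, abs_mul, abs_of_pos hKr, mul_comm]
    rw [hm, abs_le]
    constructor <;> linarith
  have hsum := summable_term nn u x y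
  unfold tameFun
  rw [← hsum.sum_add_tsum_nat_add m]
  apply add_le_add
  · calc ∑ n ∈ Finset.range m, (1 / 2 : ℝ) ^ (n + 1) * |gfun ρ u n x - gfun ρ u n y|
        ≤ ∑ n ∈ Finset.range m, (1 / 2 : ℝ) ^ (n + 1) * (1 / K) := by
          apply Finset.sum_le_sum
          intro n hn
          exact mul_le_mul_of_nonneg_left (hclose n (Finset.mem_range.mp hn)) (by positivity)
      _ ≤ ∑' n : ℕ, (1 / 2 : ℝ) ^ (n + 1) * (1 / K) := by
          apply Summable.sum_le_tsum _ (fun n _ => by positivity)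
          exact ((summable_nat_add_iff 1).mpr summable_geometric_two).mul_right _
      _ = 1 / K := by rw [tsum_mul_right, tsum_half, one_mul]
  · calc ∑' n : ℕ, (1 / 2 : ℝ) ^ (n + m + 1) * |gfun ρ u (n + m) x - gfun ρ u (n + m) y|
        ≤ ∑' n : ℕ, (1 / 2 : ℝ) ^ m * (1 / 2 : ℝ) ^ (n + 1) := by
          apply Summable.tsum_le_tsum _ ((summable_nat_add_iff m).mpr hsum)
            (((summable_nat_add_iff 1).mpr summable_geometric_two).mul_left _)
          intro n
          have := gfun_diff_le_one nn u (n + m) x y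
          have p : (0 : ℝ) ≤ (1 / 2 : ℝ) ^ (n + m + 1) := by positivity
          have q : (1 / 2 : ℝ) ^ m * (1 / 2 : ℝ) ^ (n + 1) = (1 / 2 : ℝ) ^ (n + m + 1) := by
            rw [← pow_add]; congr 1; ring
          rw [q]
          nlinarith
      _ = (1 / 2 : ℝ) ^ m := by rw [tsum_mul_left, tsum_half, mul_one]

/-- The tame pseudometric as a dynamically generating continuous pseudometric. -/
noncomputable def tameDyn (R : DynGen Γ X) (u : ℕ → X) (hu : DenseRange u) : DynGen Γ X where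
  ρ := tameFun R.ρ u
  self := tame_self _ _
  symm := tame_symm _ _
  triangle := tame_triangle (nonneg_of R.self R.symm R.triangle) u
  cont := tame_cont (nonneg_of R.self R.symm R.triangle) R.cont u
  gen := fun x y hxy => by
    obtain ⟨s, hs⟩ := R.gen x y hxy
    exact ⟨s, tame_pos R.self R.symm R.triangle R.cont hu hs⟩

end Pool.Agent.N219.PM
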